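import Mathlib

/-!
# Derandomizing LCL problems on classes of subexponential growth: Q1 fails as stated

We formalise the LOCAL model (deterministic and randomized), LCL problems, and graph classes of
bounded degree and subexponential growth, and give a class of linear growth, closed under
isomorphism, disjoint unions and passing to unions of connected components, together with an LCL
problem of radius `1` which is solved on the class by an algorithm of radius `⌊log₂ n⌋ + 1` that
does not even look at the labels or at random bits, while no deterministic algorithm (and no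
randomized one) has radius below `s` on the graphs with `n = s * 2 ^ s` vertices.
-/

open Filter Topology MeasureTheory

namespace Pool.Agent.Helper772_LCL.LogDenseBranching

/-! ## The model -/

/-- The ball `B_G(v, r)`: the vertices joined to `v` by a walk with at most `r` edges. -/
def ball {n : ℕ} (G : SimpleGraph (Fin n)) (v : Fin n) (r : ℕ) : Set (Fin n) :=
  {u | ∃ p : G.Walk v u, p.length ≤ r}

/-- The degree of a vertex. -/
noncomputable def deg {n : ℕ} (G : SimpleGraph (Fin n)) (v : Fin n) : ℕ :=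
  (G.neighborSet v).ncard

/-- The two `L`-labelled balls of radius `t` (around `v` in `G` and around `v'` in `G'`), as
rooted graphs with labels on the vertices, are isomorphic. -/
def BallIso {m n : ℕ} {L : Type} (t : ℕ)
    (G : SimpleGraph (Fin m)) (lab : Fin m → L) (v : Fin m)
    (G' : SimpleGraph (Fin n)) (lab' : Fin n → L) (v' : Fin n) : Prop :=
  ∃ e : ball G v t ≃ ball G' v' t,
    (∀ x : ball G v t, (x : Fin m) = v → (e x : Fin n) = v') ∧
    (∀ x y : ball G v t, G.Adj x y ↔ G'.Adj (e x) (e y)) ∧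
    ∀ x : ball G v t, lab x = lab' (e x)

/-- A LOCAL algorithm on graphs whose vertices carry labels from `L` (identifiers, or random bit
strings) with outputs in `S`: the output at `v` depends only on `n` and on the (isomorphism type
of the) rooted ball of radius `rad n` around `v` together with the labels on it. -/
structure LocalAlg (L S : Type) where
  /-- the complexity `t_n` -/
  rad : ℕ → ℕ
  /-- the output at a vertex -/
  out : (n : ℕ) → SimpleGraph (Fin n) → (Fin n → L) → Fin n → S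
  /-- locality -/
  isLocal : ∀ (n : ℕ) (G : SimpleGraph (Fin n)) (lab : Fin n → L) (v : Fin n)
    (G' : SimpleGraph (Fin n)) (lab' : Fin n → L) (v' : Fin n),
    BallIso (rad n) G lab v G' lab' v' → out n G lab v = out n G' lab' v'

/-- An LCL problem: a finite output alphabet `S`, a radius `r`, and a set of allowed rooted
`S`-labelled balls of radius `r` (given by a predicate on pointed labelled graphs which is
invariant under isomorphism of the labelled balls of radius `r`). -/
structure LCL where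
  /-- output alphabet -/
  S : Type
  /-- the alphabet is finite -/
  fin : Finite S
  /-- radius -/
  r : ℕ
  /-- the labelled ball around the vertex is allowed -/
  ok : (n : ℕ) → SimpleGraph (Fin n) → (Fin n → S) → Fin n → Prop
  /-- `ok` is a property of the labelled ball of radius `r` -/
  isLocal : ∀ (m n : ℕ) (G : SimpleGraph (Fin m)) (l : Fin m → S) (v : Fin m)
    (G' : SimpleGraph (Fin n)) (l' : Fin n → S) (v' : Fin n),
    BallIso r G l v G' l' v' → (ok m G l v ↔ ok n G' l' v')

/-- A labelling is a solution if the labelled ball of every vertex is allowed. -/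
def LCL.Solves (P : LCL) {n : ℕ} (G : SimpleGraph (Fin n)) (l : Fin n → P.S) : Prop :=
  ∀ v, P.ok n G l v

/-- A class of finite graphs (the graphs in `F n` have `n` vertices). -/
abbrev GraphClass : Type := ∀ n : ℕ, Set (SimpleGraph (Fin n))

/-- `F` is closed under isomorphism. -/
def IsoClosed (F : GraphClass) : Prop :=
  ∀ (n : ℕ) (G G' : SimpleGraph (Fin n)), Nonempty (G ≃g G') → G ∈ F n → G' ∈ F n

/-- Bounded degree and subexponential growth. -/
def BoundedDegreeSubexp (F : GraphClass) : Prop :=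
  ∃ (D : ℕ) (f : ℕ → ℕ), Tendsto (fun r : ℕ => Real.log (f r) / r) atTop (𝓝 0) ∧
    ∀ n, ∀ G ∈ F n, ∀ v : Fin n, deg G v ≤ D ∧ ∀ r, (ball G v r).ncard ≤ f r

/-- The deterministic algorithm `A` solves `P` on all graphs of `F`, for all injective labellings
by identifiers in `{1, ..., n ^ c}`. -/
def SolvesDet (F : GraphClass) (P : LCL) (c : ℝ) (A : LocalAlg ℕ P.S) : Prop :=
  ∀ n, ∀ G ∈ F n, ∀ ident : Fin n → ℕ, Function.Injective ident →
    (∀ v, 1 ≤ ident v ∧ (ident v : ℝ) ≤ (n : ℝ) ^ c) → P.Solves G (A.out n G ident)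

/-- Independent fair bits, infinitely many for each of the `n` vertices. -/
noncomputable def bits (n : ℕ) : Measure (Fin n × ℕ → Bool) :=
  Measure.infinitePi (fun _ : Fin n × ℕ => (PMF.uniformOfFintype Bool).toMeasure)

/-- The randomized algorithm `A` solves `P` on all graphs of `F` with probability at least
`1 - n ^ (-d)`. -/
def SolvesRand (F : GraphClass) (P : LCL) (d : ℝ) (A : LocalAlg (ℕ → Bool) P.S) : Prop :=
  ∀ n, ∀ G ∈ F n,
    MeasurableSet {w : Fin n × ℕ → Bool | P.Solves G (A.out n G (fun v i => w (v, i)))} ∧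
    1 - (n : ℝ) ^ (-d) ≤
      (bits n).real {w : Fin n × ℕ → Bool | P.Solves G (A.out n G (fun v i => w (v, i)))}

/-- The iterated logarithm. -/
def logStar (n : ℕ) : ℕ :=
  if h : n ≤ 1 then 0 else 1 + logStar (Nat.log 2 n)
termination_by n
decreasing_by exact Nat.log_lt_self 2 (by omega)

/-- The randomized LOCAL complexity of `P` on `F` is `O(log n)`. -/
def RandLog (F : GraphClass) (P : LCL) (d : ℝ) : Prop :=
  ∃ A : LocalAlg (ℕ → Bool) P.S, SolvesRand F P d A ∧
    (fun n : ℕ => (A.rad n : ℝ)) =O[atTop] (fun n : ℕ => Real.log n)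

/-- The deterministic LOCAL complexity of `P` on `F` is `O(log* n)`. -/
def DetLogStar (F : GraphClass) (P : LCL) (c : ℝ) : Prop :=
  ∃ A : LocalAlg ℕ P.S, SolvesDet F P c A ∧
    (fun n : ℕ => (A.rad n : ℝ)) =O[atTop] (fun n : ℕ => (logStar n : ℝ))

/-- The speed-up statement asked for in Q1, for identifiers up to `n ^ c` and error probability
`n ^ (-d)`. -/
def SpeedUp (c d : ℝ) : Prop :=
  ∀ F : GraphClass, IsoClosed F → BoundedDegreeSubexp F →
    ∀ P : LCL, RandLog F P d → DetLogStar F P c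

/-- `φ` embeds `H` in `G` as a union of connected components of `G`. -/
def UnionOfComponents {m n : ℕ} (H : SimpleGraph (Fin m)) (G : SimpleGraph (Fin n))
    (φ : Fin m → Fin n) : Prop :=
  Function.Injective φ ∧ (∀ x y, H.Adj x y ↔ G.Adj (φ x) (φ y)) ∧
    ∀ x y, G.Adj (φ x) y → ∃ z, φ z = y

/-- `F` is closed under passing to (unions of) connected components and under disjoint unions
(in particular under isomorphism). -/
def ComponentClosed (F : GraphClass) : Prop :=
  (∀ (m n : ℕ) (H : SimpleGraph (Fin m)) (G : SimpleGraph (Fin n)) (φ : Fin m → Fin n),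
    UnionOfComponents H G φ → G ∈ F n → H ∈ F m) ∧
  (∀ (n : ℕ) (G : SimpleGraph (Fin n)),
    (∀ v : Fin n, ∃ (m : ℕ) (H : SimpleGraph (Fin m)) (φ : Fin m → Fin n),
      H ∈ F m ∧ UnionOfComponents H G φ ∧ ∃ x, φ x = v) → G ∈ F n)

/-! ## Balls -/

lemma mem_ball_self {n : ℕ} (G : SimpleGraph (Fin n)) (v : Fin n) (r : ℕ) : v ∈ ball G v r :=
  ⟨SimpleGraph.Walk.nil, by simp⟩

lemma ball_mono {n : ℕ} (G : SimpleGraph (Fin n)) (v : Fin n) {r s : ℕ} (h : r ≤ s) :
    ball G v r ⊆ ball G v s := fun _ ⟨p, hp⟩ => ⟨p, hp.trans h⟩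

lemma mem_ball_zero {n : ℕ} {G : SimpleGraph (Fin n)} {v u : Fin n} :
    u ∈ ball G v 0 ↔ u = v := by
  constructor
  · rintro ⟨p, hp⟩
    exact (SimpleGraph.Walk.eq_of_length_eq_zero (p := p) (by omega)).symm
  · rintro rfl
    exact mem_ball_self _ _ _

lemma mem_ball_succ {n : ℕ} {G : SimpleGraph (Fin n)} {v u : Fin n} {r : ℕ} :
    u ∈ ball G v (r + 1) ↔ u = v ∨ ∃ w, G.Adj v w ∧ u ∈ ball G w r := by
  constructor
  · rintro ⟨p, hp⟩
    cases p with
    | nil => exact Or.inl rfl
    | cons h q =>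
      simp only [SimpleGraph.Walk.length_cons] at hp
      exact Or.inr ⟨_, h, q, by omega⟩
  · rintro (rfl | ⟨w, hw, p, hp⟩)
    · exact mem_ball_self _ _ _
    · exact ⟨SimpleGraph.Walk.cons hw p, by simp only [SimpleGraph.Walk.length_cons]; omega⟩

lemma ball_symm {n : ℕ} {G : SimpleGraph (Fin n)} {v u : Fin n} {r : ℕ}
    (h : u ∈ ball G v r) : v ∈ ball G u r := by
  obtain ⟨p, hp⟩ := h
  exact ⟨p.reverse, by simpa using hp⟩

lemma mem_ball_succ' {n : ℕ} {G : SimpleGraph (Fin n)} {v u : Fin n} {r : ℕ} :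
    u ∈ ball G v (r + 1) ↔ u = v ∨ ∃ w, w ∈ ball G v r ∧ G.Adj w u := by
  constructor
  · intro h
    rcases mem_ball_succ.1 (ball_symm h) with h | ⟨w, hw, h⟩
    · exact Or.inl h.symm
    · exact Or.inr ⟨w, ball_symm h, hw.symm⟩
  · rintro (rfl | ⟨w, hw, h⟩)
    · exact mem_ball_self _ _ _
    · exact ball_symm (mem_ball_succ.2 (Or.inr ⟨w, h.symm, ball_symm hw⟩))

lemma reachable_of_mem_ball {n : ℕ} {G : SimpleGraph (Fin n)} {v u : Fin n} {r : ℕ}
    (h : u ∈ ball G v r) : G.Reachable v u := ⟨h.choose⟩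

/-! ## Isomorphic balls -/

section iso

variable {m n t : ℕ} {G : SimpleGraph (Fin m)} {G' : SimpleGraph (Fin n)} {v : Fin m} {v' : Fin n}

lemma map_ball (e : ball G v t ≃ ball G' v' t)
    (h0 : ∀ x : ball G v t, (x : Fin m) = v → (e x : Fin n) = v')
    (hA : ∀ x y : ball G v t, G.Adj x y ↔ G'.Adj (e x) (e y)) :
    ∀ s, s ≤ t → ∀ x : ball G v t, (x : Fin m) ∈ ball G v s → (e x : Fin n) ∈ ball G' v' s := by
  intro s
  induction s with
  | zero =>
    intro _ x hx
    rw [mem_ball_zero] at hx ⊢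
    exact h0 x hx
  | succ s ih =>
    intro hs x hx
    rw [mem_ball_succ'] at hx ⊢
    rcases hx with hx | ⟨w, hw, hwx⟩
    · exact Or.inl (h0 x hx)
    · have hwt : w ∈ ball G v t := ball_mono G v (by omega) hw
      exact Or.inr ⟨e ⟨w, hwt⟩, ih (by omega) ⟨w, hwt⟩ hw, (hA ⟨w, hwt⟩ x).1 hwx⟩

lemma root_symm (e : ball G v t ≃ ball G' v' t)
    (h0 : ∀ x : ball G v t, (x : Fin m) = v → (e x : Fin n) = v') :
    ∀ y : ball G' v' t, (y : Fin n) = v' → (e.symm y : Fin m) = v := by
  intro y hy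
  have h1 := h0 ⟨v, mem_ball_self G v t⟩ rfl
  have h2 : y = e ⟨v, mem_ball_self G v t⟩ := Subtype.ext (hy.trans h1.symm)
  rw [h2, Equiv.symm_apply_apply]

lemma adj_symm (e : ball G v t ≃ ball G' v' t)
    (hA : ∀ x y : ball G v t, G.Adj x y ↔ G'.Adj (e x) (e y)) :
    ∀ x y : ball G' v' t, G'.Adj x y ↔ G.Adj (e.symm x) (e.symm y) := by
  intro x y
  rw [hA, Equiv.apply_symm_apply, Equiv.apply_symm_apply]

lemma map_deg (e : ball G v t ≃ ball G' v' t)
    (h0 : ∀ x : ball G v t, (x : Fin m) = v → (e x : Fin n) = v')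
    (hA : ∀ x y : ball G v t, G.Adj x y ↔ G'.Adj (e x) (e y))
    (s : ℕ) (hs : s + 1 ≤ t) (x : ball G v t) (hx : (x : Fin m) ∈ ball G v s) :
    deg G x = deg G' (e x) := by
  have hx' := map_ball e h0 hA s (by omega) x hx
  have key : ∀ u, u ∈ G.neighborSet x → u ∈ ball G v t := fun u hu =>
    ball_mono G v hs (mem_ball_succ'.2 (Or.inr ⟨x, hx, hu⟩))
  have key' : ∀ u, u ∈ G'.neighborSet (e x) → u ∈ ball G' v' t := fun u hu =>
    ball_mono G' v' hs (mem_ball_succ'.2 (Or.inr ⟨e x, hx', hu⟩))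
  refine Set.ncard_congr (fun u hu => (e ⟨u, key u hu⟩ : Fin n)) ?_ ?_ ?_
  · intro u hu
    exact (hA x ⟨u, key u hu⟩).1 hu
  · intro a b ha hb hab
    have := e.injective (Subtype.ext hab)
    exact congrArg Subtype.val this
  · intro b hb
    refine ⟨e.symm ⟨b, key' b hb⟩, ?_, ?_⟩
    · have h := (hA x (e.symm ⟨b, key' b hb⟩)).2
      rw [Equiv.apply_symm_apply] at h
      exact h hb
    · simp

end iso

/-! ## The class -/

/-- The number of vertices of the component of `v`. -/
noncomputable def compSize {n : ℕ} (G : SimpleGraph (Fin n)) (v : Fin n) : ℕ :=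
  {x | G.Reachable v x}.ncard

/-- The degree is at most `3`, balls grow linearly, and if the component of `v` contains a vertex
of degree `3`, then there is one at distance at most `⌊log₂ N⌋` from `v`, where `N` is the number
of vertices of this component. -/
def Good {n : ℕ} (G : SimpleGraph (Fin n)) (v : Fin n) : Prop :=
  deg G v ≤ 3 ∧ (∀ r, (ball G v r).ncard ≤ 4 * r + 1) ∧
    ((∃ u, G.Reachable v u ∧ deg G u = 3) →
      ∃ w ∈ ball G v (Nat.log 2 (compSize G v)), deg G w = 3)

/-- The class: all vertices are good. -/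
def cls : GraphClass := fun _ => {G | ∀ v, Good G v}

section comp

variable {m n : ℕ} {H : SimpleGraph (Fin m)} {G : SimpleGraph (Fin n)} {φ : Fin m → Fin n}

lemma comp_deg (h : UnionOfComponents H G φ) (x : Fin m) : deg H x = deg G (φ x) := by
  obtain ⟨hi, ha, hc⟩ := h
  have : G.neighborSet (φ x) = φ '' (H.neighborSet x) := by
    ext y
    constructor
    · intro hy
      obtain ⟨z, rfl⟩ := hc x y hy
      exact ⟨z, (ha x z).2 hy, rfl⟩
    · rintro ⟨z, hz, rfl⟩
      exact (ha x z).1 hz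
  rw [deg, deg, this, Set.ncard_image_of_injective _ hi]

lemma comp_ball (h : UnionOfComponents H G φ) (r : ℕ) :
    ∀ x : Fin m, ball G (φ x) r = φ '' (ball H x r) := by
  obtain ⟨hi, ha, hc⟩ := h
  induction r with
  | zero =>
    intro x
    ext y
    rw [mem_ball_zero]
    constructor
    · rintro rfl
      exact ⟨x, mem_ball_self _ _ _, rfl⟩
    · rintro ⟨z, hz, rfl⟩
      rw [mem_ball_zero.1 hz]
  | succ r ih =>
    intro x
    ext y
    rw [mem_ball_succ]
    constructor
    · rintro (rfl | ⟨w, hw, hy⟩)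
      · exact ⟨x, mem_ball_self _ _ _, rfl⟩
      · obtain ⟨z, rfl⟩ := hc x w hw
        rw [ih z] at hy
        obtain ⟨y, hy, rfl⟩ := hy
        exact ⟨y, mem_ball_succ.2 (Or.inr ⟨z, (ha x z).2 hw, hy⟩), rfl⟩
    · rintro ⟨y, hy, rfl⟩
      rcases mem_ball_succ.1 hy with rfl | ⟨w, hw, hy⟩
      · exact Or.inl rfl
      · refine Or.inr ⟨φ w, (ha x w).1 hw, ?_⟩
        rw [ih w]
        exact ⟨y, hy, rfl⟩

lemma reachable_iff {n : ℕ} {G : SimpleGraph (Fin n)} {v u : Fin n} :
    G.Reachable v u ↔ ∃ r, u ∈ ball G v r :=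
  ⟨fun ⟨p⟩ => ⟨p.length, p, le_rfl⟩, fun ⟨_, h⟩ => reachable_of_mem_ball h⟩

lemma comp_reach (h : UnionOfComponents H G φ) (x : Fin m) :
    {y | G.Reachable (φ x) y} = φ '' {y | H.Reachable x y} := by
  ext y
  simp only [Set.mem_ofPred_eq, Set.mem_image, reachable_iff]
  constructor
  · rintro ⟨r, hr⟩
    rw [comp_ball h r x] at hr
    obtain ⟨z, hz, rfl⟩ := hr
    exact ⟨z, ⟨r, hz⟩, rfl⟩
  · rintro ⟨z, ⟨r, hz⟩, rfl⟩
    refine ⟨r, ?_⟩
    rw [comp_ball h r x]
    exact ⟨z, hz, rfl⟩

lemma comp_good (h : UnionOfComponents H G φ) (x : Fin m) : Good H x ↔ Good G (φ x) := by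
  have hi := h.1
  have h1 : compSize G (φ x) = compSize H x := by
    rw [compSize, compSize, comp_reach h x, Set.ncard_image_of_injective _ hi]
  have h2 : (∃ u, G.Reachable (φ x) u ∧ deg G u = 3) ↔ ∃ u, H.Reachable x u ∧ deg H u = 3 := by
    constructor
    · rintro ⟨u, hu, hd⟩
      have : u ∈ {y | G.Reachable (φ x) y} := hu
      rw [comp_reach h x] at this
      obtain ⟨z, hz, rfl⟩ := this
      exact ⟨z, hz, by rw [comp_deg h]; exact hd⟩
    · rintro ⟨u, hu, hd⟩
      refine ⟨φ u, ?_, by rw [← comp_deg h]; exact hd⟩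
      have : φ u ∈ {y | G.Reachable (φ x) y} := by
        rw [comp_reach h x]
        exact ⟨u, hu, rfl⟩
      exact this
  have h3 : ∀ k, (∃ w ∈ ball G (φ x) k, deg G w = 3) ↔ ∃ w ∈ ball H x k, deg H w = 3 := by
    intro k
    constructor
    · rintro ⟨w, hw, hd⟩
      rw [comp_ball h] at hw
      obtain ⟨z, hz, rfl⟩ := hw
      exact ⟨z, hz, by rw [comp_deg h]; exact hd⟩
    · rintro ⟨w, hw, hd⟩
      refine ⟨φ w, ?_, by rw [← comp_deg h]; exact hd⟩
      rw [comp_ball h]
      exact ⟨w, hw, rfl⟩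
  unfold Good
  rw [h1, h2, h3, ← comp_deg h]
  have h4 : ∀ r, (ball G (φ x) r).ncard = (ball H x r).ncard := fun r => by
    rw [comp_ball h, Set.ncard_image_of_injective _ hi]
  simp only [h4]

end comp

lemma cls_componentClosed : ComponentClosed cls := by
  constructor
  · intro m n H G φ h hG x
    exact (comp_good h x).2 (hG _)
  · intro n G h v
    obtain ⟨m, H, φ, hH, hu, x, rfl⟩ := h v
    exact (comp_good hu x).1 (hH x)

lemma isoClosed_of_componentClosed {F : GraphClass} (h : ComponentClosed F) : IsoClosed F := by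
  rintro n G G' ⟨φ⟩ hG
  refine h.1 n n G' G φ.symm ⟨φ.symm.injective, ?_, ?_⟩ hG
  · intro x y
    exact (φ.symm.map_adj_iff).symm
  · intro x y _
    exact ⟨φ y, by simp⟩

lemma tendsto_growth :
    Tendsto (fun r : ℕ => Real.log ((4 * r + 1 : ℕ) : ℝ) / r) atTop (𝓝 0) := by
  have h1 := Real.tendsto_pow_log_div_mul_add_atTop (1 / 4) (-(1 / 4)) 1 (by norm_num)
  have h2 : Tendsto (fun r : ℕ => ((4 * r + 1 : ℕ) : ℝ)) atTop atTop := by
    refine tendsto_natCast_atTop_atTop.comp ?_
    refine tendsto_atTop_mono (fun r => ?_) tendsto_id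
    simp only [id]; omega
  have h3 := h1.comp h2
  refine h3.congr (fun r => ?_)
  simp only [Function.comp_apply, pow_one]
  congr 1
  push_cast
  ring

lemma cls_growth : BoundedDegreeSubexp cls :=
  ⟨3, fun r => 4 * r + 1, tendsto_growth, fun _ _ hG v => ⟨(hG v).1, (hG v).2.1⟩⟩

/-! ## The LCL problem -/

/-- The LCL problem: the labels are `none` and the elements of `ℤ/3`. Vertices of degree `3` are
not labelled `none`; `none` is constant on components; a vertex labelled `a` whose degree is not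
`3` has a neighbour labelled `a - 1`. -/
def Allowed {n : ℕ} (G : SimpleGraph (Fin n)) (l : Fin n → Option (ZMod 3)) (v : Fin n) : Prop :=
  (deg G v = 3 → l v ≠ none) ∧ (∀ u, G.Adj v u → (l u = none ↔ l v = none)) ∧
    ∀ a, l v = some a → deg G v ≠ 3 → ∃ u, G.Adj v u ∧ l u = some (a - 1)

lemma allowed_of_iso {m n : ℕ} {G : SimpleGraph (Fin m)} {l : Fin m → Option (ZMod 3)}
    {v : Fin m} {G' : SimpleGraph (Fin n)} {l' : Fin n → Option (ZMod 3)} {v' : Fin n}
    (h : BallIso 1 G l v G' l' v') (hv : Allowed G l v) : Allowed G' l' v' := by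
  obtain ⟨e, h0, hA, hl⟩ := h
  have hv0 : (e ⟨v, mem_ball_self G v 1⟩ : Fin n) = v' := h0 _ rfl
  have hdeg : deg G v = deg G' v' := by
    have := map_deg e h0 hA 0 le_rfl ⟨v, mem_ball_self G v 1⟩ (mem_ball_self G v 0)
    rwa [hv0] at this
  have hlab : l v = l' v' := by
    have := hl ⟨v, mem_ball_self G v 1⟩
    rwa [hv0] at this
  have hout : ∀ u, G.Adj v u → ∃ u', G'.Adj v' u' ∧ l' u' = l u := by
    intro u hu
    have hm : u ∈ ball G v 1 := mem_ball_succ'.2 (Or.inr ⟨v, mem_ball_self _ _ _, hu⟩)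
    refine ⟨e ⟨u, hm⟩, ?_, (hl ⟨u, hm⟩).symm⟩
    have := (hA ⟨v, mem_ball_self G v 1⟩ ⟨u, hm⟩).1 hu
    rwa [hv0] at this
  have hin : ∀ u', G'.Adj v' u' → ∃ u, G.Adj v u ∧ l' u' = l u := by
    intro u' hu
    have hm : u' ∈ ball G' v' 1 := mem_ball_succ'.2 (Or.inr ⟨v', mem_ball_self _ _ _, hu⟩)
    refine ⟨e.symm ⟨u', hm⟩, ?_, ?_⟩
    · have := (hA ⟨v, mem_ball_self G v 1⟩ (e.symm ⟨u', hm⟩)).2
      rw [Equiv.apply_symm_apply, hv0] at this
      exact this hu
    · have := hl (e.symm ⟨u', hm⟩)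
      rw [Equiv.apply_symm_apply] at this
      exact this.symm
  obtain ⟨h1, h2, h3⟩ := hv
  refine ⟨?_, ?_, ?_⟩
  · rw [← hdeg, ← hlab]
    exact h1
  · intro u' hu'
    obtain ⟨u, hu, hl'⟩ := hin u' hu'
    rw [hl', ← hlab]
    exact h2 u hu
  · intro a ha hd
    rw [← hlab] at ha
    rw [← hdeg] at hd
    obtain ⟨u, hu, hl'⟩ := h3 a ha hd
    obtain ⟨u', hu', hl''⟩ := hout u hu
    exact ⟨u', hu', hl''.trans hl'⟩

lemma BallIso.symm' {m n t : ℕ} {L : Type} {G : SimpleGraph (Fin m)} {lab : Fin m → L}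
    {v : Fin m} {G' : SimpleGraph (Fin n)} {lab' : Fin n → L} {v' : Fin n}
    (h : BallIso t G lab v G' lab' v') : BallIso t G' lab' v' G lab v := by
  obtain ⟨e, h0, hA, hl⟩ := h
  refine ⟨e.symm, root_symm e h0, adj_symm e hA, fun x => ?_⟩
  have := hl (e.symm x)
  rw [Equiv.apply_symm_apply] at this
  exact this.symm

/-- The LCL problem `Allowed`, of radius `1`. -/
def prob : LCL where
  S := Option (ZMod 3)
  fin := inferInstance
  r := 1
  ok := fun _ G l v => Allowed G l v
  isLocal := fun _ _ _ _ _ _ _ _ h => ⟨allowed_of_iso h, allowed_of_iso h.symm'⟩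

/-! ## The algorithm -/

/-- There is a vertex of degree `3` at distance at most `s` from `v`. -/
def Near {n : ℕ} (G : SimpleGraph (Fin n)) (v : Fin n) (s : ℕ) : Prop :=
  ∃ w ∈ ball G v s, deg G w = 3

open Classical in
/-- The output: the distance mod `3` to the nearest vertex of degree `3`, if there is one within
distance `k`. -/
noncomputable def answer {n : ℕ} (k : ℕ) (G : SimpleGraph (Fin n)) (v : Fin n) :
    Option (ZMod 3) :=
  if Near G v k then some ((sInf {s | Near G v s} : ℕ) : ZMod 3) else none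

lemma near_of_iso {m n k : ℕ} {L : Type} {G : SimpleGraph (Fin m)} {lab : Fin m → L}
    {v : Fin m} {G' : SimpleGraph (Fin n)} {lab' : Fin n → L} {v' : Fin n}
    (h : BallIso (k + 1) G lab v G' lab' v') {s : ℕ} (hs : s ≤ k) (hn : Near G v s) :
    Near G' v' s := by
  obtain ⟨e, h0, hA, -⟩ := h
  obtain ⟨w, hw, hd⟩ := hn
  have hw' : w ∈ ball G v (k + 1) := ball_mono G v (by omega) hw
  refine ⟨e ⟨w, hw'⟩, map_ball e h0 hA s (by omega) ⟨w, hw'⟩ hw, ?_⟩
  rw [← map_deg e h0 hA s (by omega) ⟨w, hw'⟩ hw]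
  exact hd

lemma answer_of_iso {m n k : ℕ} {L : Type} {G : SimpleGraph (Fin m)} {lab : Fin m → L}
    {v : Fin m} {G' : SimpleGraph (Fin n)} {lab' : Fin n → L} {v' : Fin n}
    (h : BallIso (k + 1) G lab v G' lab' v') : answer k G v = answer k G' v' := by
  have hiff : ∀ s, s ≤ k → (Near G v s ↔ Near G' v' s) := fun s hs =>
    ⟨near_of_iso h hs, near_of_iso h.symm' hs⟩
  unfold answer
  by_cases hk : Near G v k
  · have hk' := (hiff k le_rfl).1 hk
    rw [if_pos hk, if_pos hk']
    congr 2
    apply le_antisymm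
    · have hle : sInf {s | Near G' v' s} ≤ k := Nat.sInf_le hk'
      exact Nat.sInf_le ((hiff _ hle).2 (Nat.sInf_mem (s := {s | Near G' v' s}) ⟨k, hk'⟩))
    · have hle : sInf {s | Near G v s} ≤ k := Nat.sInf_le hk
      exact Nat.sInf_le ((hiff _ hle).1 (Nat.sInf_mem (s := {s | Near G v s}) ⟨k, hk⟩))
  · have hk' : ¬ Near G' v' k := fun h' => hk ((hiff k le_rfl).2 h')
    rw [if_neg hk, if_neg hk']

/-- The algorithm, which ignores the labels. -/
noncomputable def solver (L : Type) : LocalAlg L prob.S where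
  rad := fun n => Nat.log 2 n + 1
  out := fun n G _ v => answer (Nat.log 2 n) G v
  isLocal := fun _ _ _ _ _ _ _ h => answer_of_iso h

lemma answer_allowed {n : ℕ} {G : SimpleGraph (Fin n)} (hG : G ∈ cls n) (v : Fin n) :
    Allowed G (answer (Nat.log 2 n) G) v := by
  set k := Nat.log 2 n with hk
  have hsize : ∀ x, Nat.log 2 (compSize G x) ≤ k := by
    intro x
    apply Nat.log_mono_right
    unfold compSize
    have := Set.ncard_le_ncard (Set.subset_univ {y | G.Reachable x y}) Set.finite_univ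
    simpa [Set.ncard_univ] using this
  have hnear : ∀ x, (∃ u, G.Reachable x u ∧ deg G u = 3) ↔ Near G x k := by
    intro x
    constructor
    · intro h
      obtain ⟨w, hw, hd⟩ := (hG x).2.2 h
      exact ⟨w, ball_mono G x (hsize x) hw, hd⟩
    · rintro ⟨w, hw, hd⟩
      exact ⟨w, reachable_of_mem_ball hw, hd⟩
  have hnone : ∀ x, answer k G x = none ↔ ¬ Near G x k := by
    intro x
    unfold answer
    split_ifs with h <;> simp [h]
  refine ⟨?_, ?_, ?_⟩
  · intro hd
    rw [Ne, hnone, not_not]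
    exact ⟨v, mem_ball_self _ _ _, hd⟩
  · intro u hu
    rw [hnone, hnone, not_iff_not, ← hnear, ← hnear]
    constructor
    · rintro ⟨w, hw, hd⟩
      exact ⟨w, hu.reachable.trans hw, hd⟩
    · rintro ⟨w, hw, hd⟩
      exact ⟨w, hu.symm.reachable.trans hw, hd⟩
  · intro a ha hd
    have hv : Near G v k := by
      by_contra h
      rw [(hnone v).2 h] at ha
      exact absurd ha (by simp)
    have ha' : ((sInf {s | Near G v s} : ℕ) : ZMod 3) = a := by
      have : answer k G v = some ((sInf {s | Near G v s} : ℕ) : ZMod 3) := if_pos hv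
      rw [this] at ha
      exact Option.some.inj ha
    have hmem : Near G v (sInf {s | Near G v s}) := Nat.sInf_mem (s := {s | Near G v s}) ⟨k, hv⟩
    obtain ⟨q, hq⟩ : ∃ q, sInf {s | Near G v s} = q + 1 := by
      rcases Nat.eq_zero_or_pos (sInf {s | Near G v s}) with h | h
      · rw [h] at hmem
        obtain ⟨w, hw, hdw⟩ := hmem
        rw [mem_ball_zero.1 hw] at hdw
        exact absurd hdw hd
      · exact ⟨_, (Nat.succ_pred_eq_of_pos h).symm⟩
    rw [hq] at hmem ha'
    obtain ⟨w, hw, hdw⟩ := hmem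
    rcases mem_ball_succ.1 hw with rfl | ⟨u, hu, hw⟩
    · exact absurd hdw hd
    · have hqk : q + 1 ≤ k := by rw [← hq]; exact Nat.sInf_le hv
      have hnq : Near G u q := ⟨w, hw, hdw⟩
      have hu' : Near G u k := ⟨w, ball_mono G u (by omega) hw, hdw⟩
      have hle : sInf {s | Near G u s} ≤ q := Nat.sInf_le hnq
      have hge : q ≤ sInf {s | Near G u s} := by
        obtain ⟨w', hw', hdw'⟩ := Nat.sInf_mem (s := {s | Near G u s}) ⟨k, hu'⟩
        have : Near G v (sInf {s | Near G u s} + 1) :=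
          ⟨w', mem_ball_succ.2 (Or.inr ⟨u, hu, hw'⟩), hdw'⟩
        have := Nat.sInf_le (s := {s | Near G v s}) this
        omega
      refine ⟨u, hu, ?_⟩
      have : answer k G u = some ((sInf {s | Near G u s} : ℕ) : ZMod 3) := if_pos hu'
      rw [this, le_antisymm hle hge, ← ha']
      push_cast
      congr 1
      ring

/-! ## The two graphs of the lower bound -/

lemma ball_card_le {n : ℕ} {G : SimpleGraph (Fin n)}
    (h : ∀ x y, G.Adj x y → (x : ℕ) ≤ y + 2) (v : Fin n) (r : ℕ) :
    (ball G v r).ncard ≤ 4 * r + 1 := by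
  have key : ∀ r, ∀ u ∈ ball G v r, (u : ℕ) ≤ v + 2 * r ∧ (v : ℕ) ≤ u + 2 * r := by
    intro r
    induction r with
    | zero =>
      intro u hu
      rw [mem_ball_zero.1 hu]
      omega
    | succ r ih =>
      intro u hu
      rcases mem_ball_succ'.1 hu with rfl | ⟨w, hw, hwu⟩
      · omega
      · have h1 := ih w hw
        have h2 := h _ _ hwu
        have h3 := h _ _ hwu.symm
        omega
  have h1 : (Fin.val '' (ball G v r)).ncard = (ball G v r).ncard :=
    Set.ncard_image_of_injective _ Fin.val_injective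
  rw [← h1]
  have h2 : Fin.val '' (ball G v r) ⊆ ((Finset.Icc ((v : ℕ) - 2 * r) (v + 2 * r) : Finset ℕ) :
      Set ℕ) := by
    rintro _ ⟨u, hu, rfl⟩
    have := key r u hu
    simp only [Finset.coe_Icc, Set.mem_Icc]
    omega
  refine (Set.ncard_le_ncard h2 (Finset.finite_toSet _)).trans ?_
  rw [Set.ncard_coe_finset, Nat.card_Icc]
  omega

lemma compSize_of_connected {n : ℕ} {G : SimpleGraph (Fin n)} (h : G.Connected) (v : Fin n) :
    compSize G v = n := by
  have : {x | G.Reachable v x} = Set.univ := by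
    ext x
    simp only [Set.mem_univ, iff_true]
    exact h.preconnected v x
  rw [compSize, this, Set.ncard_univ, Nat.card_fin]

/-! ### The path -/

lemma path_deg {n : ℕ} (v : Fin n) : deg (SimpleGraph.pathGraph n) v ≤ 2 := by
  have h1 : (Fin.val '' ((SimpleGraph.pathGraph n).neighborSet v)).ncard =
      deg (SimpleGraph.pathGraph n) v := Set.ncard_image_of_injective _ Fin.val_injective
  rw [← h1]
  have h2 : Fin.val '' ((SimpleGraph.pathGraph n).neighborSet v) ⊆
      (({(v : ℕ) + 1, (v : ℕ) - 1} : Finset ℕ) : Set ℕ) := by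
    rintro _ ⟨u, hu, rfl⟩
    rw [SimpleGraph.mem_neighborSet, SimpleGraph.pathGraph_adj] at hu
    simp only [Finset.coe_insert, Finset.coe_singleton, Set.mem_insert_iff,
      Set.mem_singleton_iff]
    omega
  refine (Set.ncard_le_ncard h2 (Finset.finite_toSet _)).trans ?_
  rw [Set.ncard_coe_finset]
  exact Finset.card_le_two

lemma path_mem (n : ℕ) : SimpleGraph.pathGraph n ∈ cls n := by
  intro v
  refine ⟨(path_deg v).trans (by norm_num), ball_card_le ?_ v, ?_⟩
  · intro x y h
    rw [SimpleGraph.pathGraph_adj] at h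
    omega
  · rintro ⟨u, -, hu⟩
    have := path_deg u
    omega

lemma path_solution {n : ℕ} (hn : 0 < n) {l : Fin n → Option (ZMod 3)}
    (h : ∀ v, Allowed (SimpleGraph.pathGraph n) l v) : l ⟨0, hn⟩ = none := by
  by_contra hne
  obtain ⟨a, ha⟩ := Option.ne_none_iff_exists'.1 hne
  have key : ∀ i : ℕ, ∀ j ≤ i, ∃ hj : j < n, l ⟨j, hj⟩ = some (a - (j : ZMod 3)) := by
    intro i
    induction i with
    | zero =>
      intro j hj
      obtain rfl : j = 0 := by omega
      exact ⟨hn, by simpa using ha⟩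
    | succ i ih =>
      intro j hj
      rcases Nat.lt_or_ge j (i + 1) with hj' | hj'
      · exact ih j (by omega)
      · obtain rfl : j = i + 1 := by omega
        obtain ⟨hi, hli⟩ := ih i le_rfl
        obtain ⟨u, hu, hlu⟩ := (h ⟨i, hi⟩).2.2 _ hli (by
          have := path_deg (n := n) ⟨i, hi⟩
          omega)
        rw [SimpleGraph.pathGraph_adj] at hu
        simp only at hu
        rcases hu with hu | hu
        · refine ⟨by have := u.2; omega, ?_⟩
          have hu' : (⟨i + 1, by have := u.2; omega⟩ : Fin n) = u := Fin.ext hu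
          rw [hu', hlu]
          push_cast
          congr 1
          ring
        · exfalso
          obtain ⟨hu2, hlu'⟩ := ih u (by omega)
          have hu' : (⟨(u : ℕ), hu2⟩ : Fin n) = u := rfl
          rw [hu', hlu] at hlu'
          have h1 := Option.some.inj hlu'
          have h2 : (i : ZMod 3) = (u : ℕ) + 1 := by
            rw [← hu]
            push_cast
            ring
          rw [h2] at h1
          have h3 : (2 : ZMod 3) = 0 := by linear_combination -h1
          exact absurd h3 (by decide)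
  obtain ⟨h1, -⟩ := key n n le_rfl
  exact lt_irrefl _ h1

/-! ### The caterpillar -/

/-- The ascending edges of the caterpillar. -/
def Up (s i j : ℕ) : Prop := (j = i + 1 ∧ ¬ s ∣ j) ∨ (j = i + 2 ∧ s ∣ i + 1)

/-- The path on `0, ..., n - 1` in which the vertices divisible by `s` are taken out of the spine
and hang on their successors. -/
def cat (s n : ℕ) : SimpleGraph (Fin n) where
  Adj i j := Up s i j ∨ Up s j i
  symm := ⟨fun _ _ h => h.symm⟩
  loopless := ⟨fun i h => by
    rcases h with h | h <;> rcases h with h | h <;> omega⟩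

lemma cat_adj {s n : ℕ} {i j : Fin n} : (cat s n).Adj i j ↔ Up s i j ∨ Up s j i := Iff.rfl

lemma not_dvd {s b j : ℕ} (h0 : 0 < j) (hj : j < s) : ¬ s ∣ s * b + j := fun h =>
  absurd (Nat.le_of_dvd h0 ((Nat.dvd_add_right (Dvd.intro b rfl)).1 h)) (by omega)

lemma cat_deg_le {s n : ℕ} (v : Fin n) : deg (cat s n) v ≤ 3 := by
  classical
  have h1 : (Fin.val '' ((cat s n).neighborSet v)).ncard =
      deg (cat s n) v := Set.ncard_image_of_injective _ Fin.val_injective
  rw [← h1]
  have h2 : Fin.val '' ((cat s n).neighborSet v) ⊆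
      (({(if s ∣ (v : ℕ) + 1 then (v : ℕ) + 2 else (v : ℕ) + 1), (v : ℕ) - 1, (v : ℕ) - 2} :
        Finset ℕ) : Set ℕ) := by
    rintro _ ⟨u, hu, rfl⟩
    rw [SimpleGraph.mem_neighborSet, cat_adj] at hu
    simp only [Finset.coe_insert, Finset.coe_singleton, Set.mem_insert_iff,
      Set.mem_singleton_iff]
    rcases hu with (⟨h, h'⟩ | ⟨h, h'⟩) | (⟨h, h'⟩ | ⟨h, h'⟩)
    · left
      rw [if_neg (by rw [← h]; exact h'), h]
    · left
      rw [if_pos h', h]
    · right; left; omega
    · right; right; omega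
  refine (Set.ncard_le_ncard h2 (Finset.finite_toSet _)).trans ?_
  rw [Set.ncard_coe_finset]
  exact Finset.card_le_three

lemma cat_deg_eq {s n b : ℕ} (hs : 3 ≤ s) (hb : 1 ≤ b) (hn : s * b + 2 < n)
    (hv : s * b + 1 < n) : deg (cat s n) ⟨s * b + 1, hv⟩ = 3 := by
  refine le_antisymm (cat_deg_le _) ?_
  have hsb : 3 ≤ s * b := by nlinarith
  have h1 : s * b - 1 < n := by omega
  have h2 : s * b < n := by omega
  have hsub : (({⟨s * b - 1, h1⟩, ⟨s * b, h2⟩, ⟨s * b + 2, hn⟩} : Finset (Fin n)) :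
      Set (Fin n)) ⊆ (cat s n).neighborSet ⟨s * b + 1, hv⟩ := by
    intro u hu
    simp only [Finset.coe_insert, Finset.coe_singleton, Set.mem_insert_iff,
      Set.mem_singleton_iff] at hu
    rw [SimpleGraph.mem_neighborSet, cat_adj]
    rcases hu with rfl | rfl | rfl
    · right; right
      refine ⟨by simp only; omega, ?_⟩
      simp only
      rw [Nat.sub_add_cancel (by omega)]
      exact Dvd.intro b rfl
    · right; left
      exact ⟨rfl, not_dvd (by norm_num) (by omega)⟩
    · left; left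
      exact ⟨rfl, not_dvd (by norm_num) (by omega)⟩
  have hcard : ({⟨s * b - 1, h1⟩, ⟨s * b, h2⟩, ⟨s * b + 2, hn⟩} : Finset (Fin n)).card = 3 := by
    rw [Finset.card_eq_three]
    refine ⟨_, _, _, ?_, ?_, ?_, rfl⟩ <;>
    · intro h
      have := congrArg Fin.val h
      simp only at this
      omega
  have := Set.ncard_le_ncard hsub (Set.toFinite _)
  rw [Set.ncard_coe_finset, hcard] at this
  exact this

lemma cat_connected {s : ℕ} (hs : 3 ≤ s) : (cat s (s * 2 ^ s)).Connected := by
  have hpow : 1 ≤ 2 ^ s := Nat.one_le_two_pow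
  have hn : s ≤ s * 2 ^ s := Nat.le_mul_of_pos_right s (by omega)
  set n := s * 2 ^ s with hndef
  have hsn : s ∣ n := Dvd.intro _ rfl
  have key : ∀ i : ℕ, ∀ hi : i < n, (cat s n).Reachable ⟨i, hi⟩ ⟨1, by omega⟩ := by
    intro i
    induction i using Nat.strong_induction_on with
    | _ i ih =>
      intro hi
      rcases Nat.lt_or_ge i 2 with h2 | h2
      · rcases Nat.lt_or_ge i 1 with h1 | h1
        · obtain rfl : i = 0 := by omega
          refine SimpleGraph.Adj.reachable ?_
          rw [cat_adj]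
          left; left
          refine ⟨rfl, fun h => ?_⟩
          have h' : s ∣ 1 := h
          have := Nat.le_of_dvd (by norm_num) h'
          omega
        · obtain rfl : i = 1 := by omega
          exact SimpleGraph.Reachable.refl _
      · by_cases hd : s ∣ i
        · have hlt : i + 1 < n := by
            have h3 : s ∣ n - i := Nat.dvd_sub hsn hd
            have h4 := Nat.le_of_dvd (by omega) h3
            omega
          have e1 : (cat s n).Adj ⟨i, hi⟩ ⟨i + 1, hlt⟩ := by
            rw [cat_adj]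
            left; left
            refine ⟨rfl, fun h => ?_⟩
            have h5 := (Nat.dvd_add_right hd).1 h
            have := Nat.le_of_dvd (by norm_num) h5
            omega
          have e2 : (cat s n).Adj ⟨i - 1, by omega⟩ ⟨i + 1, hlt⟩ := by
            rw [cat_adj]
            left; right
            refine ⟨by simp only; omega, ?_⟩
            simp only
            rw [Nat.sub_add_cancel (by omega)]
            exact hd
          exact e1.reachable.trans (e2.symm.reachable.trans (ih (i - 1) (by omega) _))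
        · by_cases hd' : s ∣ i - 1
          · have e2 : (cat s n).Adj ⟨i - 2, by omega⟩ ⟨i, hi⟩ := by
              rw [cat_adj]
              left; right
              refine ⟨by simp only; omega, ?_⟩
              simp only
              rw [show i - 2 + 1 = i - 1 by omega]
              exact hd'
            exact e2.symm.reachable.trans (ih (i - 2) (by omega) _)
          · have e2 : (cat s n).Adj ⟨i - 1, by omega⟩ ⟨i, hi⟩ := by
              rw [cat_adj]
              left; left
              exact ⟨by simp only; omega, hd⟩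
            exact e2.symm.reachable.trans (ih (i - 1) (by omega) _)
  have : Nonempty (Fin n) := ⟨⟨1, by omega⟩⟩
  exact ⟨fun x y => (key x x.2).trans (key y y.2).symm⟩

lemma cat_near_first {s n : ℕ} (hs : 3 ≤ s) (hn : s + 1 < n) :
    ∀ d v : ℕ, ∀ hv : v < n, v + d = s - 1 →
      (⟨s + 1, hn⟩ : Fin n) ∈ ball (cat s n) ⟨v, hv⟩ (d + 1) := by
  intro d
  induction d with
  | zero =>
    intro v hv h
    refine mem_ball_succ.2 (Or.inr ⟨⟨s + 1, hn⟩, ?_, mem_ball_self _ _ _⟩)
    rw [cat_adj]
    left; right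
    refine ⟨by simp only; omega, ?_⟩
    simp only
    rw [show v + 1 = s by omega]
  | succ d ih =>
    intro v hv h
    refine mem_ball_succ.2 (Or.inr ⟨⟨v + 1, by omega⟩, ?_, ih (v + 1) (by omega) (by omega)⟩)
    rw [cat_adj]
    left; left
    refine ⟨rfl, fun h' => ?_⟩
    have := Nat.le_of_dvd (by simp) h'
    simp only at this
    omega

lemma cat_near_block {s n b : ℕ} (hm : s * b + 1 < n) :
    ∀ d : ℕ, ∀ hd : s * b + 1 + d < n, s * b + 1 + d < s * (b + 1) →
      (⟨s * b + 1, hm⟩ : Fin n) ∈ ball (cat s n) ⟨s * b + 1 + d, hd⟩ d := by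
  intro d
  induction d with
  | zero =>
    intro hd _
    exact mem_ball_self _ _ _
  | succ d ih =>
    intro hd h
    refine mem_ball_succ.2 (Or.inr ⟨⟨s * b + 1 + d, by omega⟩, ?_, ih (by omega) (by omega)⟩)
    rw [cat_adj]
    right; left
    refine ⟨by simp only; omega, ?_⟩
    simp only
    rw [show s * b + 1 + (d + 1) = s * b + (d + 2) by omega]
    refine not_dvd (by omega) ?_
    have : s * (b + 1) = s * b + s := by ring
    omega

lemma cat_mem {s : ℕ} (hs : 3 ≤ s) : cat s (s * 2 ^ s) ∈ cls (s * 2 ^ s) := by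
  have hconn := cat_connected hs
  have hpow : 8 ≤ 2 ^ s := by
    calc 8 = 2 ^ 3 := by norm_num
      _ ≤ 2 ^ s := Nat.pow_le_pow_right (by norm_num) hs
  have hn8 : s * 8 ≤ s * 2 ^ s := Nat.mul_le_mul_left s hpow
  intro v
  refine ⟨cat_deg_le v, ball_card_le ?_ v, fun _ => ?_⟩
  · intro x y h
    rw [cat_adj] at h
    rcases h with (⟨h, h'⟩ | ⟨h, h'⟩) | (⟨h, h'⟩ | ⟨h, h'⟩) <;> omega
  · rw [compSize_of_connected hconn v]
    have hlog : s ≤ Nat.log 2 (s * 2 ^ s) := by
      have h1 : Nat.log 2 (2 ^ s) ≤ Nat.log 2 (s * 2 ^ s) :=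
        Nat.log_mono_right (Nat.le_mul_of_pos_left _ (by omega))
      rwa [Nat.log_pow (by norm_num)] at h1
    suffices h : ∃ w ∈ ball (cat s (s * 2 ^ s)) v s, deg (cat s (s * 2 ^ s)) w = 3 by
      obtain ⟨w, hw, hd⟩ := h
      exact ⟨w, ball_mono _ _ hlog hw, hd⟩
    obtain ⟨v, hv⟩ := v
    have hdm := Nat.div_add_mod v s
    have hmod : v % s < s := Nat.mod_lt _ (by omega)
    rcases Nat.eq_zero_or_pos (v / s) with hb | hb
    · rw [hb] at hdm
      refine ⟨⟨s + 1, by omega⟩, ?_, ?_⟩
      · refine ball_mono _ _ ?_ (cat_near_first hs (by omega) (s - 1 - v) v hv (by omega))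
        omega
      · have := cat_deg_eq (s := s) (n := s * 2 ^ s) (b := 1) hs le_rfl (by omega) (by omega)
        simpa using this
    · set b := v / s with hbdef
      have hb2 : b < 2 ^ s := by
        rw [hbdef]
        exact Nat.div_lt_of_lt_mul hv
      have hbn : s * (b + 1) ≤ s * 2 ^ s := Nat.mul_le_mul_left s hb2
      have hexp : s * (b + 1) = s * b + s := by ring
      refine ⟨⟨s * b + 1, by omega⟩, ?_, cat_deg_eq hs hb (by omega) (by omega)⟩
      rcases Nat.eq_zero_or_pos (v % s) with hj | hj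
      · refine ball_mono _ _ (show 1 ≤ s by omega) ?_
        refine mem_ball_succ.2 (Or.inr ⟨⟨s * b + 1, by omega⟩, ?_, mem_ball_self _ _ _⟩)
        rw [cat_adj]
        left; left
        refine ⟨by simp only; omega, ?_⟩
        exact not_dvd (by norm_num) (by omega)
      · have h1 := cat_near_block (s := s) (n := s * 2 ^ s) (b := b) (by omega) (v % s - 1)
          (by omega) (by omega)
        have h2 : s * b + 1 + (v % s - 1) = v := by omega
        simp only [h2] at h1
        exact ball_mono _ _ (by omega) h1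

/-! ### The two balls around `0` agree -/

lemma path_ball {n : ℕ} (hn : 0 < n) : ∀ t, t < n →
    ball (SimpleGraph.pathGraph n) ⟨0, hn⟩ t = {i : Fin n | (i : ℕ) ≤ t} := by
  intro t
  induction t with
  | zero =>
    intro _
    ext i
    rw [mem_ball_zero]
    constructor
    · rintro rfl
      exact Nat.le_refl 0
    · intro h
      have h' : (i : ℕ) ≤ 0 := h
      exact Fin.ext (by simp only; omega)
  | succ t ih =>
    intro ht
    ext i
    rw [mem_ball_succ', ih (by omega)]
    constructor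
    · rintro (rfl | ⟨w, hw, h⟩)
      · exact Nat.zero_le _
      · have hw' : (w : ℕ) ≤ t := hw
        rw [SimpleGraph.pathGraph_adj] at h
        change (i : ℕ) ≤ t + 1
        omega
    · intro h
      have h' : (i : ℕ) ≤ t + 1 := h
      rcases Nat.eq_zero_or_pos (i : ℕ) with h0 | h0
      · exact Or.inl (Fin.ext h0)
      · refine Or.inr ⟨⟨(i : ℕ) - 1, by omega⟩, ?_, ?_⟩
        · change (i : ℕ) - 1 ≤ t
          omega
        · rw [SimpleGraph.pathGraph_adj]
          left
          simp only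
          omega

lemma cat_ball {s n : ℕ} (hn : 0 < n) : ∀ t, t < s →
    ball (cat s n) ⟨0, hn⟩ t = {i : Fin n | (i : ℕ) ≤ t} := by
  intro t
  induction t with
  | zero =>
    intro _
    ext i
    rw [mem_ball_zero]
    constructor
    · rintro rfl
      exact Nat.le_refl 0
    · intro h
      have h' : (i : ℕ) ≤ 0 := h
      exact Fin.ext (by simp only; omega)
  | succ t ih =>
    intro ht
    ext i
    rw [mem_ball_succ', ih (by omega)]
    constructor
    · rintro (rfl | ⟨w, hw, h⟩)
      · exact Nat.zero_le _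
      · have hw' : (w : ℕ) ≤ t := hw
        rw [cat_adj] at h
        change (i : ℕ) ≤ t + 1
        rcases h with (⟨h, h'⟩ | ⟨h, h'⟩) | (⟨h, h'⟩ | ⟨h, h'⟩)
        · omega
        · have := Nat.le_of_dvd (by omega) h'
          omega
        · omega
        · omega
    · intro h
      have h' : (i : ℕ) ≤ t + 1 := h
      rcases Nat.eq_zero_or_pos (i : ℕ) with h0 | h0
      · exact Or.inl (Fin.ext h0)
      · refine Or.inr ⟨⟨(i : ℕ) - 1, by omega⟩, ?_, ?_⟩
        · change (i : ℕ) - 1 ≤ t
          omega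
        · rw [cat_adj]
          left; left
          refine ⟨by simp only; omega, fun hd => ?_⟩
          have := Nat.le_of_dvd h0 hd
          omega

lemma ballIso_path_cat {s n t : ℕ} (hn : 0 < n) (hsn : s ≤ n) (ht : t < s) {L : Type}
    (lab : Fin n → L) :
    BallIso t (SimpleGraph.pathGraph n) lab ⟨0, hn⟩ (cat s n) lab ⟨0, hn⟩ := by
  have h1 := path_ball hn t (by omega)
  have h2 := cat_ball hn t ht
  refine ⟨Equiv.setCongr (h1.trans h2.symm), fun x hx => hx, fun x y => ?_, fun x => rfl⟩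
  have hall : ∀ z ∈ ball (SimpleGraph.pathGraph n) ⟨0, hn⟩ t, (z : ℕ) ≤ t := by
    intro z hz
    rw [h1] at hz
    exact hz
  have hx : (x : Fin n).val ≤ t := hall _ x.2
  have hy : (y : Fin n).val ≤ t := hall _ y.2
  change (SimpleGraph.pathGraph n).Adj x y ↔ (cat s n).Adj x y
  rw [SimpleGraph.pathGraph_adj, cat_adj]
  constructor
  · rintro (h | h)
    · left; left
      refine ⟨h.symm, fun hd => ?_⟩
      have := Nat.le_of_dvd (by omega) hd
      omega
    · right; left
      refine ⟨h.symm, fun hd => ?_⟩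
      have := Nat.le_of_dvd (by omega) hd
      omega
  · rintro ((⟨h, h'⟩ | ⟨h, h'⟩) | (⟨h, h'⟩ | ⟨h, h'⟩))
    · left; exact h.symm
    · have := Nat.le_of_dvd (by omega) h'
      omega
    · right; exact h.symm
    · have := Nat.le_of_dvd (by omega) h'
      omega

lemma cat_solution {s : ℕ} (hs : 3 ≤ s) {l : Fin (s * 2 ^ s) → Option (ZMod 3)}
    (h : ∀ v, Allowed (cat s (s * 2 ^ s)) l v) (v : Fin (s * 2 ^ s)) : l v ≠ none := by
  have hconn := cat_connected hs
  have hpow : 8 ≤ 2 ^ s := by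
    calc 8 = 2 ^ 3 := by norm_num
      _ ≤ 2 ^ s := Nat.pow_le_pow_right (by norm_num) hs
  have hn8 : s * 8 ≤ s * 2 ^ s := Nat.mul_le_mul_left s hpow
  have hd := cat_deg_eq (s := s) (n := s * 2 ^ s) (b := 1) hs le_rfl (by omega) (by omega)
  set m : Fin (s * 2 ^ s) := ⟨s * 1 + 1, by omega⟩
  have hm : l m ≠ none := (h m).1 hd
  have hwalk : ∀ x y : Fin (s * 2 ^ s), (cat s (s * 2 ^ s)).Walk x y →
      (l x = none ↔ l y = none) := by
    intro x y p
    induction p with
    | nil => exact Iff.rfl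
    | cons hxy _ ih => exact ((h _).2.1 _ hxy).symm.trans ih
  obtain ⟨p⟩ := hconn.preconnected v m
  rw [Ne, hwalk v m p]
  exact hm

/-! ## Lower bounds -/

/-- The connected graphs of a class. -/
def connPart (F : GraphClass) : GraphClass := fun n => {G | G ∈ F n ∧ G.Connected}

lemma path_mem_conn {s : ℕ} (hs : 3 ≤ s) :
    SimpleGraph.pathGraph (s * 2 ^ s) ∈ connPart cls (s * 2 ^ s) := by
  refine ⟨path_mem _, ?_⟩
  have hpos : 0 < s * 2 ^ s := by positivity
  obtain ⟨k, hk⟩ : ∃ k, s * 2 ^ s = k + 1 := ⟨s * 2 ^ s - 1, by omega⟩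
  rw [hk]
  exact SimpleGraph.pathGraph_connected k

lemma cat_mem_conn {s : ℕ} (hs : 3 ≤ s) : cat s (s * 2 ^ s) ∈ connPart cls (s * 2 ^ s) :=
  ⟨cat_mem hs, cat_connected hs⟩

lemma no_common {s : ℕ} (hs : 3 ≤ s) {L : Type} (A : LocalAlg L prob.S)
    (hrad : A.rad (s * 2 ^ s) < s) (lab : Fin (s * 2 ^ s) → L)
    (h0 : prob.Solves (SimpleGraph.pathGraph (s * 2 ^ s))
      (A.out _ (SimpleGraph.pathGraph (s * 2 ^ s)) lab))
    (h1 : prob.Solves (cat s (s * 2 ^ s)) (A.out _ (cat s (s * 2 ^ s)) lab)) : False := by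
  have hpos : 0 < s * 2 ^ s := by positivity
  have hle : s ≤ s * 2 ^ s := Nat.le_mul_of_pos_right s (by positivity)
  have e := A.isLocal _ _ lab _ _ lab _ (ballIso_path_cat hpos hle hrad lab)
  have e0 : A.out _ (SimpleGraph.pathGraph (s * 2 ^ s)) lab ⟨0, hpos⟩ = none :=
    path_solution hpos h0
  have e1 : A.out _ (cat s (s * 2 ^ s)) lab ⟨0, hpos⟩ ≠ none := cat_solution hs h1 _
  exact e1 (e ▸ e0)

lemma det_lower {c : ℝ} (hc : 1 ≤ c) (A : LocalAlg ℕ prob.S)
    (hA : SolvesDet (connPart cls) prob c A) {s : ℕ} (hs : 3 ≤ s) : s ≤ A.rad (s * 2 ^ s) := by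
  by_contra hlt
  have hid : ∀ v : Fin (s * 2 ^ s), 1 ≤ (v : ℕ) + 1 ∧
      (((v : ℕ) + 1 : ℕ) : ℝ) ≤ ((s * 2 ^ s : ℕ) : ℝ) ^ c := by
    intro v
    refine ⟨by omega, ?_⟩
    have h1 : (((v : ℕ) + 1 : ℕ) : ℝ) ≤ ((s * 2 ^ s : ℕ) : ℝ) := by
      exact_mod_cast v.2
    have h2 : (1 : ℝ) ≤ ((s * 2 ^ s : ℕ) : ℝ) := by
      have : 1 ≤ s * 2 ^ s := Nat.pos_of_ne_zero (by positivity)
      exact_mod_cast this
    exact h1.trans (Real.self_le_rpow_of_one_le h2 hc)
  have hinj : Function.Injective (fun v : Fin (s * 2 ^ s) => (v : ℕ) + 1) := by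
    intro a b hab
    exact Fin.ext (by simpa using hab)
  exact no_common hs A (by omega) _ (hA _ _ (path_mem_conn hs) _ hinj hid)
    (hA _ _ (cat_mem_conn hs) _ hinj hid)

lemma rand_lower {d : ℝ} (A : LocalAlg (ℕ → Bool) prob.S)
    (hA : SolvesRand (connPart cls) prob d A) {s : ℕ} (hs : 3 ≤ s)
    (hd : 2 < ((s * 2 ^ s : ℕ) : ℝ) ^ d) : s ≤ A.rad (s * 2 ^ s) := by
  by_contra hlt
  obtain ⟨m0, p0⟩ := hA _ _ (path_mem_conn hs)
  obtain ⟨m1, p1⟩ := hA _ _ (cat_mem_conn hs)
  set S0 := {w : Fin (s * 2 ^ s) × ℕ → Bool |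
    prob.Solves (SimpleGraph.pathGraph (s * 2 ^ s)) (A.out _ _ (fun v i => w (v, i)))}
  set S1 := {w : Fin (s * 2 ^ s) × ℕ → Bool |
    prob.Solves (cat s (s * 2 ^ s)) (A.out _ _ (fun v i => w (v, i)))}
  have hdisj : Disjoint S0 S1 := by
    rw [Set.disjoint_left]
    intro w h0 h1
    exact no_common hs A (by omega) _ h0 h1
  have : IsProbabilityMeasure (bits (s * 2 ^ s)) := by
    unfold bits
    infer_instance
  have hsum : (bits (s * 2 ^ s)).real S0 + (bits (s * 2 ^ s)).real S1 ≤ 1 := by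
    rw [← measureReal_union hdisj m1]
    exact measureReal_le_one
  have hpow : ((s * 2 ^ s : ℕ) : ℝ) ^ (-d) < 1 / 2 := by
    rw [Real.rpow_neg (by positivity), one_div]
    exact inv_strictAnti₀ (by norm_num) hd
  linarith

/-! ## The iterated logarithm -/

lemma logStar_le (m : ℕ) : logStar m ≤ Nat.log 2 m + 1 := by
  induction m using Nat.strong_induction_on with
  | _ m ih =>
    rw [logStar]
    split_ifs with h
    · omega
    · have h1 : Nat.log 2 m < m := Nat.log_lt_self 2 (by omega)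
      have h2 := ih _ h1
      have h3 : Nat.log 2 m ≠ 0 := by
        have := Nat.log_pos (b := 2) (n := m) (by norm_num) (by omega)
        omega
      have h4 : Nat.log 2 (Nat.log 2 m) < Nat.log 2 m := Nat.log_lt_self 2 h3
      omega

lemma logStar_size (j : ℕ) : logStar (2 ^ j * 2 ^ (2 ^ j)) ≤ j + 3 := by
  have hj : j < 2 ^ j := Nat.lt_two_pow_self
  have h1 : Nat.log 2 (2 ^ j * 2 ^ (2 ^ j)) = j + 2 ^ j := by
    rw [← pow_add, Nat.log_pow (by norm_num)]
  have h2 : Nat.log 2 (j + 2 ^ j) ≤ j + 1 := by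
    have : Nat.log 2 (j + 2 ^ j) ≤ Nat.log 2 (2 ^ (j + 1)) :=
      Nat.log_mono_right (by rw [pow_succ]; omega)
    rwa [Nat.log_pow (by norm_num)] at this
  rw [logStar]
  split_ifs with h
  · omega
  · rw [h1]
    have := logStar_le (j + 2 ^ j)
    omega

lemma not_detLogStar {c : ℝ} (hc : 1 ≤ c) : ¬ DetLogStar (connPart cls) prob c := by
  rintro ⟨A, hA, hO⟩
  obtain ⟨C, hC⟩ := hO.bound
  have htend : Tendsto (fun j : ℕ => 2 ^ j * 2 ^ (2 ^ j)) atTop atTop := by
    refine tendsto_atTop_mono (fun j => ?_) tendsto_id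
    have h1 : j < 2 ^ j := Nat.lt_two_pow_self
    have h2 : 2 ^ j ≤ 2 ^ j * 2 ^ (2 ^ j) := Nat.le_mul_of_pos_right _ (by positivity)
    simp only [id]
    omega
  have h1 := htend.eventually hC
  have h2 : Tendsto (fun j : ℕ => ((j : ℝ) + 3) / 2 ^ j) atTop (𝓝 0) := by
    have h3 := (isLittleO_coe_const_pow_of_one_lt (R := ℝ) (r := 2)
      (by norm_num)).tendsto_div_nhds_zero
    have h4 : Tendsto (fun j : ℕ => (3 : ℝ) * (1 / 2) ^ j) atTop (𝓝 (3 * 0)) :=
      (tendsto_pow_atTop_nhds_zero_of_lt_one (by norm_num) (by norm_num)).const_mul 3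
    have h5 := h3.add h4
    simp only [mul_zero, add_zero] at h5
    refine h5.congr (fun j => ?_)
    rw [one_div, inv_pow]
    field_simp
  have h3 : Tendsto (fun j : ℕ => C * (((j : ℝ) + 3) / 2 ^ j)) atTop (𝓝 (C * 0)) :=
    h2.const_mul C
  rw [mul_zero] at h3
  have h4 := h3.eventually (gt_mem_nhds (show (0 : ℝ) < 1 by norm_num))
  obtain ⟨j, hj1, hj2, hj3⟩ := (h1.and (h4.and (eventually_ge_atTop 2))).exists
  have hs : 3 ≤ 2 ^ j := by
    calc 3 ≤ 2 ^ 2 := by norm_num
      _ ≤ 2 ^ j := Nat.pow_le_pow_right (by norm_num) hj3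
  have hlow := det_lower hc A hA hs
  rw [Real.norm_of_nonneg (by positivity), Real.norm_of_nonneg (by positivity)] at hj1
  have hlow' : ((2 : ℝ) ^ j) ≤ (A.rad (2 ^ j * 2 ^ 2 ^ j) : ℝ) := by exact_mod_cast hlow
  have hls : (logStar (2 ^ j * 2 ^ (2 ^ j)) : ℝ) ≤ (j : ℝ) + 3 := by
    exact_mod_cast logStar_size j
  have hpos : (0 : ℝ) < 2 ^ j := by positivity
  have hCpos : 0 ≤ C ∨ C < 0 := le_or_gt 0 C
  rw [← mul_div_assoc, div_lt_one hpos] at hj2
  rcases hCpos with hC0 | hC0
  · have := mul_le_mul_of_nonneg_left hls hC0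
    linarith
  · have h6 : C * (logStar (2 ^ j * 2 ^ (2 ^ j)) : ℝ) ≤ 0 :=
      mul_nonpos_of_nonpos_of_nonneg hC0.le (Nat.cast_nonneg _)
    linarith

lemma randLog (d : ℝ) (F : GraphClass) (hF : ∀ n, F n ⊆ cls n) : RandLog F prob d := by
  refine ⟨solver (ℕ → Bool), ?_, ?_⟩
  · intro n G hG
    have huniv : {w : Fin n × ℕ → Bool | prob.Solves G
        ((solver (ℕ → Bool)).out n G (fun v i => w (v, i)))} = Set.univ := by
      ext w
      simp only [Set.mem_univ, iff_true]
      exact fun v => answer_allowed (hF n hG) v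
    rw [huniv]
    have : IsProbabilityMeasure (bits n) := by
      unfold bits
      infer_instance
    refine ⟨MeasurableSet.univ, ?_⟩
    have h1 : (bits n).real Set.univ = 1 := by simp
    rw [h1]
    have := Real.rpow_nonneg (Nat.cast_nonneg (α := ℝ) n) (-d)
    linarith
  · refine Asymptotics.IsBigO.of_bound (1 / Real.log 2 + 1) ?_
    filter_upwards [eventually_ge_atTop 3] with n hn
    have hn' : (3 : ℝ) ≤ n := by exact_mod_cast hn
    have hlog : 1 ≤ Real.log n := by
      rw [Real.le_log_iff_exp_le (by linarith)]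
      exact (Real.exp_one_lt_d9.le.trans (by norm_num)).trans hn'
    have h1 : (Nat.log 2 n : ℝ) ≤ Real.logb 2 n := by exact_mod_cast Real.natLog_le_logb n 2
    rw [Real.norm_of_nonneg (by positivity), Real.norm_of_nonneg (by linarith)]
    change ((Nat.log 2 n + 1 : ℕ) : ℝ) ≤ _
    push_cast
    rw [Real.logb] at h1
    have : (1 / Real.log 2 + 1) * Real.log n = Real.log n / Real.log 2 + Real.log n := by ring
    rw [this]
    linarith

lemma connPart_isoClosed : IsoClosed (connPart cls) := by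
  rintro n G G' ⟨φ⟩ ⟨hG, hc⟩
  exact ⟨isoClosed_of_componentClosed cls_componentClosed n G G' ⟨φ⟩ hG, φ.connected_iff.1 hc⟩

/-- **Main theorem.** (1) The speed-up statement of Q1 is false, for all admissible `c`, `d`.
(2) More precisely, there are a class `F` of graphs, closed under isomorphism, disjoint unions and
passing to unions of connected components, with maximum degree at most `3` and balls of radius `r`
with at most `4 * r + 1` vertices, and an LCL problem `P` of radius `1` such that `P` is solved on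
`F` by an algorithm of radius `⌊log₂ n⌋ + 1` which does not use its labels (identifiers or random
bits), whereas every deterministic algorithm for `P`, even on the connected graphs of `F`, has
radius at least `s` at `n = s * 2 ^ s`, and so has every randomized algorithm with failure
probability below `1/2` at this `n`. -/
theorem result :
    (∀ c d : ℝ, 1 ≤ c → 0 < d → ¬ SpeedUp c d) ∧
    ∃ (F : GraphClass) (P : LCL),
      ComponentClosed F ∧ IsoClosed F ∧ P.r = 1 ∧
      (∀ n, ∀ G ∈ F n, ∀ v : Fin n, deg G v ≤ 3 ∧ ∀ r, (ball G v r).ncard ≤ 4 * r + 1) ∧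
      (∀ L : Type, ∃ A : LocalAlg L P.S, (∀ n, A.rad n = Nat.log 2 n + 1) ∧
        ∀ n, ∀ G ∈ F n, ∀ lab : Fin n → L, P.Solves G (A.out n G lab)) ∧
      (∀ c : ℝ, 1 ≤ c → ∀ A : LocalAlg ℕ P.S, SolvesDet (connPart F) P c A →
        ∀ s : ℕ, 3 ≤ s → s ≤ A.rad (s * 2 ^ s)) ∧
      (∀ d : ℝ, ∀ A : LocalAlg (ℕ → Bool) P.S, SolvesRand (connPart F) P d A →
        ∀ s : ℕ, 3 ≤ s → 2 < ((s * 2 ^ s : ℕ) : ℝ) ^ d → s ≤ A.rad (s * 2 ^ s)) := by
  refine ⟨?_, cls, prob, cls_componentClosed, isoClosed_of_componentClosed cls_componentClosed,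
    rfl, fun n G hG v => ⟨(hG v).1, (hG v).2.1⟩, ?_, ?_, ?_⟩
  · intro c d hc _ hS
    refine not_detLogStar hc (hS (connPart cls) connPart_isoClosed ?_ prob
      (randLog d _ (fun n G hG => hG.1)))
    obtain ⟨D, f, hf, h⟩ := cls_growth
    exact ⟨D, f, hf, fun n G hG => h n G hG.1⟩
  · intro L
    exact ⟨solver L, fun _ => rfl, fun n G hG _ v => answer_allowed hG v⟩
  · intro c hc A hA s hs
    exact det_lower hc A hA hs
  · intro d A hA s hs hd
    exact rand_lower A hA hs hd

end Pool.Agent.Helper772_LCL.LogDenseBranching
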